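import Mathlib
import Pool.Agent.Q290.SC.Stm

set_option autoImplicit false

/-!
# Project SC (helper290), job FORM: automorphisms of the surface group preserve the intersection
form up to sign (by Heisenberg groups)
-/

namespace Pool.Agent.Q139.SC

open Pool.Agent.Q290.SC Pool.Agent.H29R2.MG Matrix

/-- the Heisenberg group of a bilinear form -/
@[ext] structure Hei {g : ℕ} (β : VV g →ₗ[ℤ] VV g →ₗ[ℤ] ℤ) where
  v : VV g
  t : ℤ

namespace Hei

variable {g : ℕ} {β : VV g →ₗ[ℤ] VV g →ₗ[ℤ] ℤ}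

instance : Mul (Hei β) := ⟨fun a b => ⟨a.v + b.v, a.t + b.t + β a.v b.v⟩⟩
instance : One (Hei β) := ⟨⟨0, 0⟩⟩
instance : Inv (Hei β) := ⟨fun a => ⟨-a.v, -a.t + β a.v a.v⟩⟩

@[simp] theorem mul_v (a b : Hei β) : (a * b).v = a.v + b.v := rfl
@[simp] theorem mul_t (a b : Hei β) : (a * b).t = a.t + b.t + β a.v b.v := rfl
@[simp] theorem one_v : (1 : Hei β).v = 0 := rfl
@[simp] theorem one_t : (1 : Hei β).t = 0 := rfl
@[simp] theorem inv_v (a : Hei β) : (a⁻¹).v = -a.v := rfl
@[simp] theorem inv_t (a : Hei β) : (a⁻¹).t = -a.t + β a.v a.v := rfl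

instance : Group (Hei β) :=
  Group.ofLeftAxioms
    (fun a b c => by
      apply Hei.ext
      · simp only [mul_v]; rw [add_assoc]
      · simp only [mul_v, mul_t, map_add, LinearMap.add_apply]; ring)
    (fun a => by
      apply Hei.ext
      · simp
      · simp)
    (fun a => by
      apply Hei.ext
      · simp
      · simp)

/-- the centre -/
def cen : Multiplicative ℤ →* Hei β where
  toFun c := ⟨0, c.toAdd⟩
  map_one' := rfl
  map_mul' a b := by
    apply Hei.ext
    · simp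
    · simp

/-- the projection -/
def pr : Hei β →* Multiplicative (VV g) where
  toFun a := Multiplicative.ofAdd a.v
  map_one' := rfl
  map_mul' a b := rfl

theorem comm4 (a b : Hei β) : a * b * a⁻¹ * b⁻¹ =
    cen (Multiplicative.ofAdd (β a.v b.v - β b.v a.v)) := by
  apply Hei.ext
  · simp [cen]
  · simp [cen]
    ring

theorem lift_relator (f : Fin g ⊕ Fin g → Hei β) : FreeGroup.lift f (surfaceRelator g) =
    cen (Multiplicative.ofAdd (∑ i : Fin g, (β (f (Sum.inl i)).v (f (Sum.inr i)).v -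
      β (f (Sum.inr i)).v (f (Sum.inl i)).v))) := by
  unfold surfaceRelator
  rw [map_list_prod, List.map_ofFn]
  have e : (⇑(FreeGroup.lift f) ∘ fun i : Fin g =>
      FreeGroup.of (Sum.inl i) * FreeGroup.of (Sum.inr i) * (FreeGroup.of (Sum.inl i))⁻¹ *
        (FreeGroup.of (Sum.inr i))⁻¹) = (⇑(cen (β := β)) ∘ fun i : Fin g =>
      Multiplicative.ofAdd (β (f (Sum.inl i)).v (f (Sum.inr i)).v -
        β (f (Sum.inr i)).v (f (Sum.inl i)).v)) := by
    funext i
    simp only [Function.comp_apply, map_mul, map_inv, FreeGroup.lift_apply_of]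
    exact comm4 _ _
  rw [e, ← List.map_ofFn, ← map_list_prod, List.prod_ofFn, ofAdd_sum]

end Hei

variable {g : ℕ}

/-- the number `∑ B(e_{a_i}, e_{b_i})` for vectors `X j` in place of `e_j` -/
def mm (β : VV g →ₗ[ℤ] VV g →ₗ[ℤ] ℤ) (X : Fin g ⊕ Fin g → VV g) : ℤ :=
  ∑ i : Fin g, (β (X (Sum.inl i)) (X (Sum.inr i)) - β (X (Sum.inr i)) (X (Sum.inl i)))

theorem mm_sub (β γ : VV g →ₗ[ℤ] VV g →ₗ[ℤ] ℤ) (c : ℤ) (X : Fin g ⊕ Fin g → VV g) :
    mm (β - c • γ) X = mm β X - c * mm γ X := by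
  unfold mm
  rw [Finset.mul_sum, ← Finset.sum_sub_distrib]
  refine Finset.sum_congr rfl fun i _ => ?_
  simp only [LinearMap.sub_apply, LinearMap.smul_apply, smul_eq_mul]
  ring

/-- the basis vectors -/
def bas (j : Fin g ⊕ Fin g) : VV g := Pi.single j 1

theorem hom_key (β : VV g →ₗ[ℤ] VV g →ₗ[ℤ] ℤ) (h0 : mm β bas = 0)
    (φ : SurfaceGroup g →* SurfaceGroup g) :
    mm β (fun j => homologyClass (φ (gen j))) = 0 := by
  set f : Fin g ⊕ Fin g → Hei β := fun j => ⟨bas j, 0⟩ with hf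
  have hrel : FreeGroup.lift f (surfaceRelator g) = 1 := by
    rw [Hei.lift_relator]
    have : (∑ i : Fin g, (β (f (Sum.inl i)).v (f (Sum.inr i)).v -
      β (f (Sum.inr i)).v (f (Sum.inl i)).v)) = 0 := h0
    rw [this]
    exact map_one _
  set θ : SurfaceGroup g →* Hei β := outHom (FreeGroup.lift f) hrel with hθ
  have hgen : ∀ j, θ (gen j) = f j := by
    intro j
    rw [hθ]
    unfold gen
    rw [outHom_mk, FreeGroup.lift_apply_of]
  have hpr : Hei.pr.comp θ = homologyHom g := by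
    apply surface_ext
    intro j
    rw [MonoidHom.comp_apply, hgen]
    unfold homologyHom gen
    rw [outHom_mk]
    unfold freeHom
    rw [FreeGroup.lift_apply_of]
    rfl
  have hv : ∀ x, (θ x).v = homologyClass x := by
    intro x
    unfold homologyClass
    rw [← hpr]
    rfl
  have h1 : (θ.comp (φ.comp (mk g))) = FreeGroup.lift (fun j => θ (φ (gen j))) := by
    apply FreeGroup.ext_hom
    intro j
    rw [FreeGroup.lift_apply_of]
    rfl
  have h2 : FreeGroup.lift (fun j => θ (φ (gen j))) (surfaceRelator g) = 1 := by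
    rw [← h1, MonoidHom.comp_apply, MonoidHom.comp_apply, mk_relator, map_one, map_one]
  rw [Hei.lift_relator] at h2
  have h3 := congrArg Hei.t h2
  have h4 : (∑ i : Fin g, (β (θ (φ (gen (Sum.inl i)))).v (θ (φ (gen (Sum.inr i)))).v -
      β (θ (φ (gen (Sum.inr i)))).v (θ (φ (gen (Sum.inl i)))).v)) = 0 := h3
  simp only [hv] at h4
  exact h4

/-- the form `x_p y_r` -/
def el (p r : Fin g ⊕ Fin g) : VV g →ₗ[ℤ] VV g →ₗ[ℤ] ℤ :=
  LinearMap.mk₂ ℤ (fun x y => x p * y r) (fun x x' y => by simp [add_mul])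
    (fun c x y => by simp [mul_assoc]) (fun x y y' => by simp [mul_add])
    (fun c x y => by simp; ring)

@[simp] theorem el_apply (p r : Fin g ⊕ Fin g) (x y : VV g) : el p r x y = x p * y r := rfl

/-- the matrix of the form -/
def JJ (g : ℕ) : Matrix (Fin g ⊕ Fin g) (Fin g ⊕ Fin g) ℤ := fromBlocks 0 1 (-1) 0

theorem JJ_sq : JJ g * JJ g = -1 := by
  unfold JJ
  rw [fromBlocks_multiply]
  simp only [Matrix.zero_mul, Matrix.mul_zero, Matrix.one_mul, Matrix.mul_one, zero_add, add_zero,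
    Matrix.neg_mul]
  rw [← fromBlocks_one, fromBlocks_neg]
  simp

theorem JJ_ll (p r : Fin g) : JJ g (Sum.inl p) (Sum.inl r) = 0 := rfl
theorem JJ_lr (p r : Fin g) : JJ g (Sum.inl p) (Sum.inr r) = (1 : Matrix (Fin g) (Fin g) ℤ) p r := rfl
theorem JJ_rl (p r : Fin g) : JJ g (Sum.inr p) (Sum.inl r) =
  (-1 : Matrix (Fin g) (Fin g) ℤ) p r := rfl
theorem JJ_rr (p r : Fin g) : JJ g (Sum.inr p) (Sum.inr r) = 0 := rfl

/-- the matrix with columns `X j` -/
def mat (X : Fin g ⊕ Fin g → VV g) : Matrix (Fin g ⊕ Fin g) (Fin g ⊕ Fin g) ℤ := fun p j => X j p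

theorem mm_el (X : Fin g ⊕ Fin g → VV g) (p r : Fin g ⊕ Fin g) :
    mm (el p r) X = (mat X * JJ g * (mat X)ᵀ) p r := by
  unfold mm
  rw [Matrix.mul_apply, Fintype.sum_sum_type]
  simp only [Matrix.mul_apply, Fintype.sum_sum_type, JJ_ll, JJ_lr, JJ_rl, JJ_rr, Matrix.one_apply,
    Matrix.neg_apply, transpose_apply, mat, el_apply, mul_zero, Finset.sum_const_zero, zero_add,
    add_zero, mul_ite, mul_one, mul_neg, Finset.sum_ite_eq', Finset.sum_neg_distrib,
    Finset.mem_univ, if_true]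
  rw [← Finset.sum_add_distrib]
  refine Finset.sum_congr rfl fun i _ => ?_
  ring

theorem mat_bas : mat (bas (g := g)) = 1 := by
  ext p j
  simp [mat, bas, Matrix.one_apply, Pi.single_apply]

theorem form_eq (u v : VV g) : intersectionForm u v = u ⬝ᵥ (JJ g *ᵥ v) := by
  unfold intersectionForm
  simp only [dotProduct, Matrix.mulVec, Fintype.sum_sum_type, JJ_ll, JJ_lr, JJ_rl, JJ_rr,
    Matrix.one_apply, Matrix.neg_apply, zero_mul, Finset.sum_const_zero, zero_add, add_zero,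
    ite_mul, one_mul, neg_mul, Finset.sum_ite_eq, Finset.sum_neg_distrib,
    Finset.mem_univ, if_true]
  rw [← Finset.sum_add_distrib]
  refine Finset.sum_congr rfl fun i _ => ?_
  ring

/-- the matrix of an endomorphism -/
def Mx (φ : SurfaceGroup g →* SurfaceGroup g) : Matrix (Fin g ⊕ Fin g) (Fin g ⊕ Fin g) ℤ :=
  mat fun j => homologyClass (φ (gen j))

theorem hc_mul (x y : SurfaceGroup g) : homologyClass (x * y) = homologyClass x + homologyClass y := by
  unfold homologyClass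
  rw [map_mul]
  rfl

theorem hc_gen (j : Fin g ⊕ Fin g) : homologyClass (gen j : SurfaceGroup g) = bas j := by
  unfold homologyClass homologyHom gen
  rw [outHom_mk]
  unfold freeHom
  rw [FreeGroup.lift_apply_of]
  rfl

theorem Mx_mulVec (φ : SurfaceGroup g →* SurfaceGroup g) (x : SurfaceGroup g) :
    homologyClass (φ x) = Mx φ *ᵥ homologyClass x := by
  set A : SurfaceGroup g →* Multiplicative (VV g) := (homologyHom g).comp φ with hA
  set B : SurfaceGroup g →* Multiplicative (VV g) :=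
    (AddMonoidHom.toMultiplicative ((Mx φ).mulVecLin.toAddMonoidHom)).comp (homologyHom g) with hB
  have h : A = B := by
    apply surface_ext
    intro j
    have h1 : B (gen j) = Multiplicative.ofAdd (Mx φ *ᵥ homologyClass (gen j : SurfaceGroup g)) := rfl
    have h2 : A (gen j) = Multiplicative.ofAdd (homologyClass (φ (gen j))) := rfl
    rw [h1, h2, hc_gen]
    congr 1
    ext p
    simp [bas, Mx, mat]
  have := DFunLike.congr_fun h x
  exact this

theorem Mx_mul (φ ψ : SurfaceGroup g →* SurfaceGroup g) (h : ∀ x, φ (ψ x) = x) :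
    Mx φ * Mx ψ = 1 := by
  ext p j
  have h1 : (Mx φ * Mx ψ) p j = (Mx φ *ᵥ homologyClass (ψ (gen j))) p := rfl
  rw [h1, ← Mx_mulVec, h, hc_gen]
  simp [bas, Matrix.one_apply, Pi.single_apply]

theorem form : S_FORM := by
  intro g φ
  rcases Nat.eq_zero_or_pos g with hg | hg
  · subst hg
    exact ⟨1, Or.inl rfl, fun x y => by simp [intersectionForm]⟩
  set F : SurfaceGroup g →* SurfaceGroup g := φ.toMonoidHom with hF
  set G : SurfaceGroup g →* SurfaceGroup g := φ.symm.toMonoidHom with hG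
  have hFG : Mx F * Mx G = 1 := Mx_mul F G fun x => φ.apply_symm_apply x
  have hGF : Mx G * Mx F = 1 := Mx_mul G F fun x => φ.symm_apply_apply x
  set a0 : Fin g ⊕ Fin g := Sum.inl ⟨0, hg⟩ with ha0
  set b0 : Fin g ⊕ Fin g := Sum.inr ⟨0, hg⟩ with hb0
  have hJ0 : JJ g a0 b0 = 1 := by
    rw [ha0, hb0, JJ_lr, Matrix.one_apply_eq]
  have hone : mm (el a0 b0) (bas (g := g)) = 1 := by
    rw [mm_el, mat_bas]
    simp [hJ0]
  -- the relation for all forms
  have hall : ∀ ψ : SurfaceGroup g →* SurfaceGroup g, ∀ β : VV g →ₗ[ℤ] VV g →ₗ[ℤ] ℤ,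
      mm β (fun j => homologyClass (ψ (gen j))) =
      mm β bas * mm (el a0 b0) (fun j => homologyClass (ψ (gen j))) := by
    intro ψ β
    have h1 := hom_key (β - (mm β bas) • el a0 b0) (by rw [mm_sub, hone]; ring) ψ
    rw [mm_sub] at h1
    linarith
  have hmat : ∀ ψ : SurfaceGroup g →* SurfaceGroup g, Mx ψ * JJ g * (Mx ψ)ᵀ =
      (mm (el a0 b0) (fun j => homologyClass (ψ (gen j)))) • JJ g := by
    intro ψ
    ext p r
    have h1 := hall ψ (el p r)
    rw [mm_el, mm_el _ p r, mat_bas] at h1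
    simp only [Matrix.one_mul, transpose_one, Matrix.mul_one] at h1
    rw [Matrix.smul_apply, smul_eq_mul, mul_comm]
    exact h1
  set n : ℤ := mm (el a0 b0) (fun j => homologyClass (F (gen j))) with hn
  have hMF : Mx F * JJ g * (Mx F)ᵀ = n • JJ g := hmat F
  have hMFt : (Mx F)ᵀ * (Mx G)ᵀ = 1 := by rw [← transpose_mul, hGF, transpose_one]
  -- `n` is a unit
  have hu : JJ g = n • (Mx G * JJ g * (Mx G)ᵀ) := by
    calc JJ g = (Mx G * Mx F) * JJ g * ((Mx F)ᵀ * (Mx G)ᵀ) := by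
          rw [hGF, hMFt, Matrix.one_mul, Matrix.mul_one]
      _ = Mx G * (Mx F * JJ g * (Mx F)ᵀ) * (Mx G)ᵀ := by simp only [Matrix.mul_assoc]
      _ = _ := by rw [hMF, Matrix.mul_smul, Matrix.smul_mul]
  have hnu : n = 1 ∨ n = -1 := by
    have h1 := congrFun (congrFun hu a0) b0
    rw [hJ0, Matrix.smul_apply, smul_eq_mul] at h1
    exact Int.isUnit_iff.1 (IsUnit.of_mul_eq_one _ h1.symm)
  refine ⟨n, hnu, ?_⟩
  -- transposed relation
  have hT : (Mx F)ᵀ * JJ g * Mx F = n • JJ g := by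
    have h1 : Mx F * (JJ g * (Mx F)ᵀ * JJ g) = -(n • (1 : Matrix (Fin g ⊕ Fin g) (Fin g ⊕ Fin g) ℤ)) := by
      calc Mx F * (JJ g * (Mx F)ᵀ * JJ g) = (Mx F * JJ g * (Mx F)ᵀ) * JJ g := by
            simp only [Matrix.mul_assoc]
        _ = n • (JJ g * JJ g) := by rw [hMF, Matrix.smul_mul]
        _ = _ := by rw [JJ_sq, smul_neg]
    have h2 : JJ g * (Mx F)ᵀ * JJ g = -(n • Mx G) := by
      calc JJ g * (Mx F)ᵀ * JJ g = (Mx G * Mx F) * (JJ g * (Mx F)ᵀ * JJ g) := by
            rw [hGF, Matrix.one_mul]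
        _ = Mx G * (Mx F * (JJ g * (Mx F)ᵀ * JJ g)) := by rw [Matrix.mul_assoc]
        _ = _ := by rw [h1, Matrix.mul_neg, Matrix.mul_smul, Matrix.mul_one]
    calc (Mx F)ᵀ * JJ g * Mx F = -(JJ g * JJ g) * ((Mx F)ᵀ * JJ g * Mx F) := by
          rw [JJ_sq, neg_neg, Matrix.one_mul]
      _ = -(JJ g * ((JJ g * (Mx F)ᵀ * JJ g) * Mx F)) := by
          simp only [Matrix.mul_assoc, Matrix.neg_mul]
      _ = n • JJ g := by
          rw [h2, Matrix.neg_mul, Matrix.smul_mul, hGF, Matrix.mul_neg, neg_neg, Matrix.mul_smul,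
            Matrix.mul_one]
  intro x y
  have hx : homologyClass (φ x) = Mx F *ᵥ homologyClass x := Mx_mulVec F x
  have hy : homologyClass (φ y) = Mx F *ᵥ homologyClass y := Mx_mulVec F y
  rw [hx, hy, form_eq, form_eq]
  calc (Mx F *ᵥ homologyClass x) ⬝ᵥ (JJ g *ᵥ (Mx F *ᵥ homologyClass y))
      = homologyClass x ⬝ᵥ (((Mx F)ᵀ * JJ g * Mx F) *ᵥ homologyClass y) := by
        rw [Matrix.mul_assoc, ← Matrix.mulVec_mulVec, ← Matrix.mulVec_mulVec,
          Matrix.dotProduct_mulVec (homologyClass x), Matrix.vecMul_transpose]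
    _ = _ := by
        rw [hT, Matrix.smul_mulVec, dotProduct_smul, smul_eq_mul]

end Pool.Agent.Q139.SC
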